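import Pool.Agent.helper1.CD.Spec

/-!
# Project CD (MP_2e0e07_nt), row TRC: characters trivial on the Galois group are trivial on norms
-/

set_option autoImplicit false

open NumberField IsDedekindDomain Complex Pool.Agent.CH Pool.Agent.GK

namespace Pool.Agent.CD

theorem TRC_cyc {F M : Type} [Field F] [Field M] [Algebra F M] {m : ℕ} {z : M} (hm : 0 < m) (hz : IsPrimitiveRoot z m)
    (hadj : Algebra.adjoin F {z} = ⊤) : IsCyclotomicExtension {m} F M := by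
  have : NeZero m := ⟨hm.ne'⟩
  refine (IsCyclotomicExtension.iff_singleton m F M).2 ⟨⟨z, hz⟩, fun x => ?_⟩
  have h1 : x ∈ Algebra.adjoin F {z} := by
    rw [hadj]
    exact Algebra.mem_top
  refine Algebra.adjoin_mono ?_ h1
  rintro y rfl
  exact hz.pow_eq_one

theorem TRC_prime {F M : Type} [Field F] [NumberField F] [Field M] [NumberField M] [Algebra F M] {m : ℕ} {z : M}
    {ψ : DirichletCharacter ℂ m} (hm : 0 < m) (hz : IsPrimitiveRoot z m) (hadj : Algebra.adjoin F {z} = ⊤)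
    (hψ : ∀ (g : M ≃ₐ[F] M) (r : ℕ), g z = z ^ r → ψ ((r : ℕ) : ZMod m) = 1) (P : Ideal (𝓞 F)) [P.IsPrime]
    (hP0 : P ≠ ⊥) (hPm : P ⊔ Ideal.span {((m : ℕ) : 𝓞 F)} = ⊤) : ψ ((Ideal.absNorm P : ℕ) : ZMod m) = 1 := by
  have : NeZero m := ⟨hm.ne'⟩
  have hcyc : IsCyclotomicExtension {m} F M := TRC_cyc hm hz hadj
  have : IsGalois F M := IsCyclotomicExtension.isGalois {m} F M
  have : FiniteDimensional F M := Module.Finite.of_restrictScalars_finite ℚ F M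
  have : P.IsMaximal := Ideal.IsPrime.isMaximal inferInstance hP0
  obtain ⟨Q, hQm, hQl⟩ := Ideal.exists_maximal_ideal_liesOver_of_isIntegral (S := 𝓞 M) P
  have : Q.IsPrime := hQm.isPrime
  have hQb : Q ≠ ⊥ := Ideal.ne_bot_of_liesOver_of_ne_bot hP0 Q
  have : Finite (𝓞 M ⧸ Q) := Ideal.finiteQuotientOfFreeOfNeBot Q hQb
  obtain ⟨τ, hτ⟩ := IsArithFrobAt.exists_of_isInvariant (𝓞 F) (M ≃ₐ[F] M) Q
  have hcard : Nat.card (𝓞 F ⧸ Q.under (𝓞 F)) = Ideal.absNorm P := by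
    rw [← Ideal.over_def Q P]
    rfl
  have hmP : ((m : ℕ) : 𝓞 F) ∉ P := by
    intro h
    apply (inferInstance : P.IsPrime).ne_top
    rw [← hPm, eq_comm, sup_eq_left, Ideal.span_singleton_le_iff_mem]
    exact h
  have hmQ : ((m : ℕ) : 𝓞 M) ∉ Q := by
    intro h
    apply hmP
    have h2 : P = Q.comap (algebraMap (𝓞 F) (𝓞 M)) := Ideal.over_def Q P
    rw [h2, Ideal.mem_comap, map_natCast]
    exact h
  obtain ⟨ζ, hζ⟩ : ∃ ζ : 𝓞 M, (ζ : M) = z := ⟨⟨z, hz.isIntegral hm⟩, rfl⟩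
  have hζm : ζ ^ m = 1 := by
    apply RingOfIntegers.coe_injective
    rw [map_pow, map_one]
    show (ζ : M) ^ m = 1
    rw [hζ, hz.pow_eq_one]
  have h1 := hτ.apply_of_pow_eq_one hζm hmQ
  rw [hcard] at h1
  refine hψ τ (Ideal.absNorm P) ?_
  have h2 := congrArg (fun t : 𝓞 M => (t : M)) h1
  have h3 : (((MulSemiringAction.toAlgHom (𝓞 F) (𝓞 M) τ) ζ : 𝓞 M) : M) = τ (ζ : M) := rfl
  rw [← hζ, ← h3]
  exact h2.trans (map_pow (algebraMap (𝓞 M) M) ζ _)

theorem TRC : TRC_stmt := by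
  intro F M _ _ _ _ _ m z ψ hm hz hadj hψ a
  refine UniqueFactorizationMonoid.induction_on_prime a ?_ ?_ ?_
  · intro h
    exact absurd rfl h
  · intro x hx _ _
    have h1 : x = 1 := by
      rw [Ideal.isUnit_iff] at hx
      rw [hx, Ideal.one_eq_top]
    subst h1
    unfold nch
    rw [if_neg (show (1 : Ideal (𝓞 F)) ≠ ⊥ from one_ne_zero), map_one, Nat.cast_one, map_one]
  · intro b P hb hP ih h0 hm'
    have : P.IsPrime := Ideal.isPrime_of_prime hP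
    have hP0 : P ≠ ⊥ := hP.ne_zero
    have h1 : P ⊔ Ideal.span {((m : ℕ) : 𝓞 F)} = ⊤ :=
      top_le_iff.1 (hm' ▸ sup_le_sup_right Ideal.mul_le_left _)
    have h2 : b ⊔ Ideal.span {((m : ℕ) : 𝓞 F)} = ⊤ :=
      top_le_iff.1 (hm' ▸ sup_le_sup_right Ideal.mul_le_right _)
    have h3 := TRC_prime hm hz hadj hψ P hP0 h1
    have h4 := ih hb h2
    unfold nch at h4 ⊢
    rw [if_neg (show b ≠ ⊥ from hb)] at h4
    rw [if_neg h0, map_mul, Nat.cast_mul, map_mul, h3, h4, one_mul]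

end Pool.Agent.CD
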